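import Pool.Agent.Helper58.R3.Stmts

/-!
# MP_7ef5a1_co: the set up of the case of two elements
-/

set_option autoImplicit false
open Classical

namespace Pool.Agent.Helper58.R3

open Pool.Agent.Helper28.RS (TF amal Bet)
open Pool.Agent.Helper77.SND (Copy C3)

theorem st_BS (hLYF : ST_LYF) (hR2 : ST_R2) : ST_BS := by
  intro m H v0 Z ψ k c c' d hS h1c hck h1c' hck' hcc' ha hb hd hdP hdO
  obtain ⟨f1, f2, f3, _, _, f6, _, _, _, _, f11⟩ := hLYF m H v0 Z ψ k hS
  have hla : Lay Z ψ c (ψ^[k - c] v0) := by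
    have := f6 (k - c) (Nat.sub_le _ _)
    rwa [Nat.sub_sub_self hck] at this
  have hlb : Lay Z ψ c' (ψ^[k - c'] v0) := by
    have := f6 (k - c') (Nat.sub_le _ _)
    rwa [Nat.sub_sub_self hck'] at this
  have hab : ψ^[k - c] v0 ≠ ψ^[k - c'] v0 := by
    intro h
    rw [h] at hla
    exact hcc' (f2 _ _ _ hla hlb)
  have hda : d ≠ ψ^[k - c] v0 := hdO _ (Nat.sub_le _ _)
  have hdb : d ≠ ψ^[k - c'] v0 := hdO _ (Nat.sub_le _ _)
  have hset : ({ψ^[k - c] v0, ψ^[k - c'] v0, d} : Finset (Fin m)) = nb H Z := by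
    apply Finset.eq_of_subset_of_card_le
    · intro x hx
      simp only [Finset.mem_insert, Finset.mem_singleton] at hx
      rcases hx with rfl | rfl | rfl
      · exact ha
      · exact hb
      · exact hd
    · rw [hS.D3, Finset.card_insert_of_notMem, Finset.card_insert_of_notMem,
        Finset.card_singleton]
      · simp only [Finset.mem_singleton]
        exact fun h => hdb h.symm
      · simp only [Finset.mem_insert, Finset.mem_singleton, not_or]
        exact ⟨hab, fun h => hda h.symm⟩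
  have hD : ∀ x, x ∈ nb H Z ↔ x = ψ^[k - c] v0 ∨ x = ψ^[k - c'] v0 ∨ x = d := by
    intro x
    rw [← hset]
    simp only [Finset.mem_insert, Finset.mem_singleton]
  -- the sum of the layers
  have hcc : c + c' = k + 1 := by
    have e1 : c % (k + 1) = c := Nat.mod_eq_of_lt (by omega)
    have e2 : c' % (k + 1) = c' := Nat.mod_eq_of_lt (by omega)
    obtain ⟨_, _, g1⟩ := hR2 m H v0 Z ψ k hS _ ha c hla (by rw [e1]; omega)
    obtain ⟨_, _, g2⟩ := hR2 m H v0 Z ψ k hS _ hb c' hlb (by rw [e2]; omega)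
    rw [e1] at g1
    rw [e2] at g2
    have l1 := f6 (c - 1) (by omega)
    have l2 := f6 (c' - 1) (by omega)
    rcases (hD _).1 g1 with h | h | h
    · rw [h] at l1
      have q1 := f2 _ _ _ l1 hla
      rcases (hD _).1 g2 with h' | h' | h'
      · rw [h'] at l2
        have q2 := f2 _ _ _ l2 hla
        omega
      · rw [h'] at l2
        have q2 := f2 _ _ _ l2 hlb
        omega
      · exact absurd h'.symm (hdO _ (by omega))
    · rw [h] at l1
      have q1 := f2 _ _ _ l1 hlb
      omega
    · exact absurd h.symm (hdO _ (by omega))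
  -- everything enters
  have hnp : ∀ x, ¬ Per Z ψ x := by
    intro x0 hx0
    have hDP : ∀ y ∈ nb H Z, ¬ Per Z ψ y := by
      intro y hy
      rcases (hD y).1 hy with rfl | rfl | rfl
      · exact f3 _ _ hla
      · exact f3 _ _ hlb
      · exact hdP
    obtain ⟨F, hF⟩ : ∃ F : Finset (Fin m), F = Finset.univ.filter (fun x => Per Z ψ x) :=
      ⟨_, rfl⟩
    have hmF : ∀ x, x ∈ F ↔ Per Z ψ x := by
      intro x
      rw [hF]
      simp only [Finset.mem_filter, Finset.mem_univ, true_and]
    have hnb : nb H F = ∅ := by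
      rw [Finset.eq_empty_iff_forall_notMem]
      intro y hy
      simp only [nb, Finset.mem_filter, Finset.mem_univ, true_and] at hy
      obtain ⟨hyF, x, hxF, hxy⟩ := hy
      rw [hmF] at hyF hxF
      rcases f1 y with ⟨i, hi⟩ | h
      · obtain ⟨g1, g2⟩ := f11 y x i hi hxF hxy.symm
        exact hDP _ g1 g2
      · exact hyF h
    have hk := hS.k3 F ⟨x0, (hmF x0).2 hx0⟩ (by rw [hnb]; simp) v0
    rcases hk with h | h
    · exact f3 _ _ hS.kl ((hmF v0).1 h)
    · rw [hnb] at h
      exact absurd h (Finset.notMem_empty _)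
  exact ⟨hS, h1c, h1c', hcc, hcc', hD, hdO, hnp⟩

end Pool.Agent.Helper58.R3
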